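import Pool.Agent.helper32.NN.Spec

/-!
# Project NN (MP_3938c6_al), module COA
-/

set_option autoImplicit false

open Submodule

noncomputable section

namespace Pool.Agent.NN

universe u v

theorem COA : COA_stmt.{u, v} := by
  intro K U _ _ _ A G _ 𝒜 h φ
  refine ⟨?_, ?_, ?_⟩
  · intro r
    have hd : Disjoint {g : G | Multiplicative.toAdd (φ g) = r} {g : G | Multiplicative.toAdd (φ g) ≠ r} := by
      rw [Set.disjoint_left]
      intro g hg hg'
      exact hg' hg
    have h1 := h.ind.disjoint_biSup_biSup hd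
    refine h1.mono le_rfl ?_
    refine iSup₂_le fun s hs => iSup₂_le fun g hg => ?_
    exact le_iSup₂_of_le g (show Multiplicative.toAdd (φ g) ≠ r by rw [hg]; exact hs) le_rfl
  · rw [← h.sup]
    refine le_antisymm (iSup_le fun r => iSup₂_le fun g _ => le_iSup 𝒜 g) (iSup_le fun g => ?_)
    exact le_iSup_of_le (Multiplicative.toAdd (φ g)) (le_iSup₂_of_le g rfl le_rfl)
  · intro r s
    simp only [Submodule.iSup_mul, Submodule.mul_iSup]
    refine iSup₂_le fun g hg => iSup₂_le fun g' hg' => ?_
    refine (h.mul g' g).trans ?_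
    refine le_iSup₂_of_le (g' * g) ?_ le_rfl
    rw [map_mul, toAdd_mul]
    rw [hg, hg']

end Pool.Agent.NN
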